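import Mathlib
import Pool.Agent.TH949.TX.EDefs
import Pool.Agent.TH949.TX.SDefs

set_option autoImplicit false

open Complex MeasureTheory Set Filter Topology
open Pool.Agent.W189.TP (DS)

namespace Pool.Agent.TH150.TX

open Pool.Agent.TH949.TX

/-- the distribution function of the Sato-Tate measure on `[0, 1]` -/
noncomputable def stF (w : ℝ) : ℝ := w - Real.sin (2 * Real.pi * w) / (2 * Real.pi)

private noncomputable def g (w : ℝ) : ℝ := 2 * Real.pi * Real.sin (Real.pi * w)

private lemma g_cont : Continuous g := by unfold g; fun_prop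

private lemma stF_cont : Continuous stF := by unfold stF; fun_prop

private lemma hcos (w : ℝ) : HasDerivAt (fun w : ℝ => Real.cos (Real.pi * w))
    (-(Real.pi * Real.sin (Real.pi * w))) w := by
  have h := (Real.hasDerivAt_cos (Real.pi * w)).comp w ((hasDerivAt_id w).const_mul Real.pi)
  refine h.congr_deriv ?_
  simp; ring

private lemma hsin (w : ℝ) : HasDerivAt (fun w : ℝ => Real.sin (Real.pi * w))
    (Real.pi * Real.cos (Real.pi * w)) w := by
  have h := (Real.hasDerivAt_sin (Real.pi * w)).comp w ((hasDerivAt_id w).const_mul Real.pi)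
  refine h.congr_deriv ?_
  simp; ring

private lemma int_g (a b : ℝ) : ∫ w in a..b, g w =
    2 * Real.cos (Real.pi * a) - 2 * Real.cos (Real.pi * b) := by
  have h : ∀ w ∈ uIcc a b, HasDerivAt (fun w : ℝ => -(2 * Real.cos (Real.pi * w))) (g w) w := by
    intro w _
    refine (((hcos w).const_mul 2).neg).congr_deriv ?_
    unfold g; ring
  rw [intervalIntegral.integral_eq_sub_of_hasDerivAt h (g_cont.intervalIntegrable _ _)]
  ring

private lemma int_stF : ∫ w in (0 : ℝ)..1, stF w * g w = 2 := by
  have h : ∀ w ∈ uIcc (0 : ℝ) 1, HasDerivAt (fun w : ℝ => -(2 * w * Real.cos (Real.pi * w)) +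
      2 / Real.pi * Real.sin (Real.pi * w) - 2 / (3 * Real.pi) * Real.sin (Real.pi * w) ^ 3)
        (stF w * g w) w := by
    intro w _
    have h1 := ((((hasDerivAt_id w).const_mul 2).mul (hcos w)).neg.add
      ((hsin w).const_mul (2 / Real.pi))).sub (((hsin w).pow 3).const_mul (2 / (3 * Real.pi)))
    refine h1.congr_deriv ?_
    unfold stF g
    have hpi : Real.pi ≠ 0 := Real.pi_ne_zero
    have h2 : Real.sin (2 * Real.pi * w) = 2 * Real.sin (Real.pi * w) * Real.cos (Real.pi * w) := by
      rw [mul_assoc, Real.sin_two_mul]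
    rw [h2]
    field_simp
    simp
    ring
  rw [intervalIntegral.integral_eq_sub_of_hasDerivAt h
    ((stF_cont.mul g_cont).intervalIntegrable _ _)]
  simp

private lemma ind_int (x a b : ℝ) : IntervalIntegrable ((Ioi x).indicator g) volume a b := by
  have h := (g_cont.intervalIntegrable (μ := volume) a b)
  constructor
  · exact h.1.indicator measurableSet_Ioi
  · exact h.2.indicator measurableSet_Ioi

private lemma int_ind (x : ℝ) (h0 : 0 ≤ x) (h1 : x ≤ 1) :
    ∫ w in (0 : ℝ)..1, (Ioi x).indicator g w = 2 + 2 * Real.cos (Real.pi * x) := by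
  rw [← intervalIntegral.integral_add_adjacent_intervals (ind_int x 0 x) (ind_int x x 1)]
  have e1 : ∫ w in (0 : ℝ)..x, (Ioi x).indicator g w = 0 := by
    rw [intervalIntegral.integral_congr (g := fun _ => (0 : ℝ))]
    · simp
    · intro w hw
      rw [uIcc_of_le h0] at hw
      exact indicator_of_notMem (by simpa using hw.2) g
  have e2 : ∫ w in x..1, (Ioi x).indicator g w = ∫ w in x..1, g w := by
    rw [intervalIntegral.integral_of_le h1, intervalIntegral.integral_of_le h1]
    exact setIntegral_congr_fun measurableSet_Ioc fun w hw => indicator_of_mem hw.1 g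
  rw [e1, e2, int_g]
  simp
  ring

theorem t_koksma1 (J : Finset ℕ) (x : ℕ → ℝ) (hx : ∀ j ∈ J, 0 ≤ x j ∧ x j ≤ 1) (D : ℝ)
    (h : ∀ w : ℝ, 0 ≤ w → w ≤ 1 → -D ≤ ((J.filter (fun j => x j < w)).card : ℝ) - J.card * stF w) :
    -(4 * D) ≤ ∑ j ∈ J, 2 * Real.cos (Real.pi * x j) := by
  have key : 0 ≤ ∫ w in (0 : ℝ)..1, ((∑ j ∈ J, (Ioi (x j)).indicator g w) -
      J.card * (stF w * g w) + D * g w) := by
    apply intervalIntegral.integral_nonneg (by norm_num)
    intro w hw
    have hg : 0 ≤ g w := by
      unfold g
      have : 0 ≤ Real.sin (Real.pi * w) := by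
        apply Real.sin_nonneg_of_nonneg_of_le_pi
        · exact mul_nonneg Real.pi_pos.le hw.1
        · nlinarith [Real.pi_pos, hw.2]
      positivity
    have hs : ∑ j ∈ J, (Ioi (x j)).indicator g w =
        ((J.filter (fun j => x j < w)).card : ℝ) * g w := by
      rw [Finset.card_filter]
      push_cast
      rw [Finset.sum_mul]
      apply Finset.sum_congr rfl
      intro j _
      by_cases hj : x j < w
      · rw [indicator_of_mem (show w ∈ Ioi (x j) from hj), if_pos hj, one_mul]
      · rw [indicator_of_notMem (show w ∉ Ioi (x j) from hj), if_neg hj, zero_mul]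
    rw [hs]
    have h3 := h w hw.1 hw.2
    nlinarith
  have i1 : IntervalIntegrable (fun w => ∑ j ∈ J, (Ioi (x j)).indicator g w) volume 0 1 := by
    have : (fun w => ∑ j ∈ J, (Ioi (x j)).indicator g w) = ∑ j ∈ J, (Ioi (x j)).indicator g := by
      ext w; simp
    rw [this]
    exact IntervalIntegrable.sum _ fun j _ => ind_int (x j) 0 1
  have i2 : IntervalIntegrable (fun w => (J.card : ℝ) * (stF w * g w)) volume 0 1 :=
    (continuous_const.mul (stF_cont.mul g_cont)).intervalIntegrable _ _
  have i3 : IntervalIntegrable (fun w => D * g w) volume 0 1 :=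
    (continuous_const.mul g_cont).intervalIntegrable _ _
  rw [intervalIntegral.integral_add (i1.sub i2) i3, intervalIntegral.integral_sub i1 i2,
    intervalIntegral.integral_finsetSum fun j _ => ind_int (x j) 0 1,
    intervalIntegral.integral_const_mul, intervalIntegral.integral_const_mul, int_stF, int_g] at key
  rw [Finset.sum_congr rfl fun j hj => int_ind (x j) (hx j hj).1 (hx j hj).2,
    Finset.sum_add_distrib, Finset.sum_const, nsmul_eq_mul] at key
  simp at key
  linarith

end Pool.Agent.TH150.TX
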